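import Pool.Agent.K2D.Stmts
import Pool.Agent.K2C.All

/-!
# Assembly
-/

set_option autoImplicit false

open Polynomial
open scoped TensorProduct

namespace Pool.Agent.K2D

open Pool.Agent.BEK Pool.Agent.K2B Pool.Agent.K2C

noncomputable section

namespace All

/-! ## Nonvanishing -/

section nonvanishing

variable {k : Type} [Field k] {n : ℕ} (c : Pl k n)

theorem ell_ne (hGen : Stmt_Gen3) (i : Fin (n + 2)) : c.ell i ≠ 0 := by
  intro h
  have h1 := (hGen k n c).1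
  rw [Finset.prod_eq_zero (Finset.mem_univ i) h, mul_zero] at h1
  exact zero_ne_one h1

/-- the two units of the symbol `η_ij` -/
theorem eta_eq (hGen : Stmt_Gen3) (ij : Pr n) : ∃ u w : (c.F)ˣ,
    (u : c.F) = c.cst (c.α ij.1.2.succ / (c.α ij.1.2.succ - c.α ij.1.1.succ)) *
      (c.ell ij.1.1.succ / c.ell 0) ∧
    (w : c.F) = c.cst (c.α ij.1.1.succ / (c.α ij.1.1.succ - c.α ij.1.2.succ)) *
      (c.ell ij.1.2.succ / c.ell 0) ∧
    c.eta ij = symQ u w := by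
  have hd : c.α ij.1.1.succ ≠ c.α ij.1.2.succ :=
    fun h => ij.2.ne (Fin.succ_injective _ (c.inj h))
  have hu : c.cst (c.α ij.1.2.succ / (c.α ij.1.2.succ - c.α ij.1.1.succ)) *
      (c.ell ij.1.1.succ / c.ell 0) ≠ 0 := by
    refine mul_ne_zero ?_ (div_ne_zero (ell_ne c hGen _) (ell_ne c hGen _))
    rw [Ne, map_eq_zero]
    exact div_ne_zero (c.succ_ne _) (sub_ne_zero.2 hd.symm)
  have hw : c.cst (c.α ij.1.1.succ / (c.α ij.1.1.succ - c.α ij.1.2.succ)) *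
      (c.ell ij.1.2.succ / c.ell 0) ≠ 0 := by
    refine mul_ne_zero ?_ (div_ne_zero (ell_ne c hGen _) (ell_ne c hGen _))
    rw [Ne, map_eq_zero]
    exact div_ne_zero (c.succ_ne _) (sub_ne_zero.2 hd)
  refine ⟨Units.mk0 _ hu, Units.mk0 _ hw, rfl, rfl, ?_⟩
  unfold Pl.eta K2B.sym
  rw [dif_pos ⟨hu, hw⟩]

theorem eta_unram (hInteg : Stmt_Integ3) (hGen : Stmt_Gen3) (hα : ∀ i, IsIntegral ℤ (c.α i))
    (hl : IsIntegral ℤ c.lam) (ij : Pr n) : Unram (c.eta ij) := by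
  obtain ⟨u, w, hu, hw, h⟩ := eta_eq c hGen ij
  intro v
  rw [h]
  exact v.tame2_sym u w (hInteg k c.F c.cst n c.α c.lam c.s c.t c.ell c.inj c.zero hα hl
    (fun _ => rfl) (hGen k n c).1 v _ _ (Fin.succ_ne_zero _) (Fin.succ_ne_zero _)
    (fun h' => ij.2.ne (Fin.succ_injective _ h')) u w hu hw)

end nonvanishing

/-! ## One loop -/

theorem loop_exists (hTr : Stmt_Transc) (hFLoop : Stmt_FLoop3) (hInv : K2C.Stmt_Inv)
    (hEst : Stmt_Est2) (hXi : Stmt_XiReg3) (hGen : Stmt_Gen3)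
    {k : Type} [Field k] [NumberField k] {n : ℕ} (c : Pl k n) (σ : k →+* ℂ)
    (r M ρ : ℝ) (hr : Transcendental ℚ r) (hM : 11 / 5 ≤ M)
    (hS : Sys (fun i => σ (c.α i)) r M) (hB : BSys (fun j => σ (c.α j)) ρ)
    (hL : 1 ≤ ‖σ c.lam‖) (l m : Fin (n + 2)) :
    ∃ (γ : Loop c.F) (R : Fin (n + 2) → Fin (n + 2) → ℝ),
      c.Over γ σ ∧ ((∀ a, (σ a).im = 0) → Anti γ) ∧
      (∀ ij : Pr n, γ.reg (c.eta ij) =
        (R ij.1.1.succ ij.1.2.succ - R ij.1.1.succ 0 - R 0 ij.1.2.succ + R 0 0) -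
        (R ij.1.2.succ ij.1.1.succ - R ij.1.2.succ 0 - R 0 ij.1.1.succ + R 0 0)) ∧
      ∀ (v : Fin (n + 2) → Fin (n + 2) → ℝ) (V : ℝ), (∀ i j, |v i j| ≤ V) →
      |(∑ i, ∑ j, v i j * R i j) -
        (Real.log ‖σ c.lam‖ * v l m +
          ∑ i, Real.log ‖σ (c.α l) - σ (c.α i)‖ * (v l m - v i m) +
          ∑ j, Real.log ‖σ (c.α m) - σ (c.α j)‖ * (v l m - v l j))| ≤
        21 / 20 * (((n + 1 : ℕ) : ℝ) + 1) / M * V := by
  set a : Fin (n + 2) → ℂ := fun i => σ (c.α i) with ha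
  set X : ℝ → ℂ := circ (a l) r with hX
  set L : ℂ := σ c.lam with hLd
  have hM0 : 0 < M := by linarith
  have hL0 : L ≠ 0 := by
    intro h; rw [h, norm_zero] at hL; linarith
  have hXs : ContDiff ℝ 1 X := by
    rw [hX]; unfold circ
    exact contDiff_const.add (contDiff_const.mul
      ((Complex.ofRealCLM.contDiff.mul contDiff_const).cexp))
  have hXp : ∀ θ, X (θ + 2 * Real.pi) = X θ := by
    intro θ
    rw [hX]; unfold circ
    congr 2
    push_cast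
    rw [add_mul, Complex.exp_add, Complex.exp_two_pi_mul_I, mul_one]
  have hXc : ∀ θ, ‖X θ - a l‖ = r := by
    intro θ
    rw [hX]; unfold circ
    rw [add_sub_cancel_left, norm_mul, Complex.norm_exp_ofReal_mul_I, mul_one, Complex.norm_real,
      Real.norm_of_nonneg hS.pos.le]
  set P : ℝ → ℂ := fun θ => ∏ i, (X θ - a i) with hP
  have hPs : ContDiff ℝ 1 P := contDiff_prod fun i _ => hXs.sub contDiff_const
  have hPp : ∀ θ, P (θ + 2 * Real.pi) = P θ := by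
    intro θ; simp only [hP, hXp]
  have hPm : ∀ θ, M ≤ ‖P θ‖ := fun θ => hS.big l (X θ) (hXc θ)
  have hP0 : ∀ θ, P θ ≠ 0 := by
    intro θ h
    have := hPm θ
    rw [h, norm_zero] at this
    linarith
  set w : ℝ → ℂ := fun θ => (L * P θ)⁻¹ with hw
  have hLP : ∀ θ, L * P θ ≠ 0 := fun θ => mul_ne_zero hL0 (hP0 θ)
  have hws : ContDiff ℝ 1 w := (contDiff_const.mul hPs).inv hLP
  have hwp : ∀ θ, w (θ + 2 * Real.pi) = w θ := by
    intro θ; simp only [hw, hPp]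
  have hwm : ∀ θ, ‖w θ‖ ≤ 1 / M := by
    intro θ
    rw [hw]
    simp only
    rw [norm_inv, norm_mul, one_div]
    apply inv_anti₀ hM0
    calc M = 1 * M := (one_mul M).symm
      _ ≤ ‖L‖ * ‖P θ‖ := mul_le_mul hL (hPm θ) hM0.le (norm_nonneg _)
  have hM5 : 1 / M ≤ 5 / 11 := by
    rw [div_le_div_iff₀ hM0 (by norm_num)]
    linarith
  obtain ⟨Y, hYs, hYp, hYρ, hYw, hYc⟩ := hInv (n + 1) a ρ hB m w hws hwp
    (fun θ => (hwm θ).trans hM5)
  have hrel : ∀ θ, L * (∏ i, (X θ - a i)) * (∏ j, (Y θ - a j)) = 1 := by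
    intro θ
    rw [hYw]
    exact mul_inv_cancel₀ (hLP θ)
  obtain ⟨γ, hγo, hγl, hγs⟩ := hFLoop k n c σ X Y hXs hYs hXp hYp hrel
    (fun θ f hf => hTr.2 k σ (c.α l) r θ hS.pos hr f hf)
  obtain ⟨κ, hκ0, hκ1, hκ2, hκ3⟩ := hB.der m
  have hτ : ∀ θ, ‖Y θ - a m‖ ≤ 1 / (M * κ) := by
    intro θ
    have h1 := hκ1 (Y θ) (hYρ θ)
    rw [hYw] at h1
    have h2 := h1.trans (hwm θ)
    rw [le_div_iff₀ (mul_pos hM0 hκ0)]
    rw [le_div_iff₀ hM0] at h2
    linarith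
  have hτ2 : ∀ j, j ≠ m → 1 / (M * κ) ≤ ‖a m - a j‖ / 12 := by
    intro j hj
    refine le_trans ?_ (hκ2 j hj)
    rw [div_le_div_iff₀ (mul_pos hM0 hκ0) (by positivity)]
    nlinarith
  have hE := hEst (n + 1) (n + 1) a a L r ρ (1 / (M * κ)) l m Y hS.pos hS.sep hB.sep hYs hYp hYρ hrel hτ hτ2
  have hNX : ∀ i, Nz (fun θ => X θ - a i) := by
    intro i
    refine ⟨hXs.sub contDiff_const, fun θ => by rw [hXp], fun θ h => hP0 θ ?_⟩
    exact Finset.prod_eq_zero (Finset.mem_univ i) h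
  have hNY : ∀ j, Nz (fun θ => Y θ - a j) := by
    intro j
    refine ⟨hYs.sub contDiff_const, fun θ => by rw [hYp], fun θ h => ?_⟩
    have h1 := hrel θ
    have h2 : ∏ j, (Y θ - a j) = 0 := Finset.prod_eq_zero (Finset.mem_univ j) h
    rw [h2, mul_zero] at h1
    exact zero_ne_one h1
  refine ⟨γ, All.RR a a r l Y, hγo, ?_, ?_, ?_⟩
  · intro hσ
    have hX' : ∀ θ, X (-θ) = (starRingEnd ℂ) (X θ) := by
      intro θ
      have hal : (starRingEnd ℂ) (a l) = a l := Complex.conj_eq_iff_im.2 (hσ _)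
      rw [hX]; unfold circ
      rw [map_add, map_mul, hal, Complex.conj_ofReal, ← Complex.exp_conj, map_mul,
        Complex.conj_ofReal, Complex.conj_I]
      push_cast
      ring_nf
    have hP' : ∀ θ, P (-θ) = (starRingEnd ℂ) (P θ) := by
      intro θ
      simp only [hP, map_prod, map_sub, hX']
      refine Finset.prod_congr rfl fun i _ => ?_
      rw [show (starRingEnd ℂ) (a i) = a i from Complex.conj_eq_iff_im.2 (hσ _)]
    refine hγs hσ hX' (hYc (fun j => hσ _) ?_)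
    intro θ
    simp only [hw, map_inv₀, map_mul, hP']
    rw [show (starRingEnd ℂ) L = L from Complex.conj_eq_iff_im.2 (hσ _)]
  · intro ij
    obtain ⟨u, w', hu, hw', h⟩ := eta_eq c hGen ij
    have h0 : a 0 = 0 := by rw [ha]; simp only; rw [c.zero, map_zero]
    have hinj : ∀ i j, i ≠ j → a i ≠ a j := fun i j hij h' => hij (c.inj (σ.injective h'))
    rw [h, Loop.reg_sym, hu, hw']
    have e1 : (fun θ => γ.ev θ (c.cst (c.α ij.1.2.succ / (c.α ij.1.2.succ - c.α ij.1.1.succ)) *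
        (c.ell ij.1.1.succ / c.ell 0))) =
        fun θ => (a ij.1.2.succ - a 0) / (a ij.1.2.succ - a ij.1.1.succ) *
          (((X θ - a ij.1.1.succ) * (Y θ - a ij.1.1.succ)) / ((X θ - a 0) * (Y θ - a 0))) := by
      funext θ
      rw [map_mul, hγo, map_div₀ (γ.ev θ), hγl, hγl, map_div₀ σ, map_sub σ, h0, sub_zero]
      simp only [ha, c.zero, map_zero]
    have e2 : (fun θ => γ.ev θ (c.cst (c.α ij.1.1.succ / (c.α ij.1.1.succ - c.α ij.1.2.succ)) *
        (c.ell ij.1.2.succ / c.ell 0))) =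
        fun θ => (a ij.1.1.succ - a 0) / (a ij.1.1.succ - a ij.1.2.succ) *
          (((X θ - a ij.1.2.succ) * (Y θ - a ij.1.2.succ)) / ((X θ - a 0) * (Y θ - a 0))) := by
      funext θ
      rw [map_mul, hγo, map_div₀ (γ.ev θ), hγl, hγl, map_div₀ σ, map_sub σ, h0, sub_zero]
      simp only [ha, c.zero, map_zero]
    rw [e1, e2, hXi X Y (a 0) (a ij.1.1.succ) (a ij.1.2.succ)
      (hinj _ _ (Fin.succ_ne_zero _).symm) (hinj _ _ (Fin.succ_ne_zero _).symm)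
      (hinj _ _ fun h' => ij.2.ne (Fin.succ_injective _ h'))
      (hNX _) (hNX _) (hNX _) (hNY _) (hNY _) (hNY _)]
    unfold All.RR
    ring
  · intro v V hv
    refine (hE v V hv).trans ?_
    have hV : 0 ≤ V := (abs_nonneg _).trans (hv l m)
    have h1 : 1 / (M * κ) * ∑ j ∈ Finset.univ.erase m, 1 / ‖a m - a j‖ ≤ 1 / (2 * M) := by
      calc 1 / (M * κ) * ∑ j ∈ Finset.univ.erase m, 1 / ‖a m - a j‖
          ≤ 1 / (M * κ) * (κ / 2) := mul_le_mul_of_nonneg_left hκ3 (by positivity)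
        _ = 1 / (2 * M) := by field_simp
    calc 2 * V * (((n + 1 : ℕ) : ℝ) + 1) * (21 / 20) *
          (1 / (M * κ) * ∑ j ∈ Finset.univ.erase m, 1 / ‖a m - a j‖)
        ≤ 2 * V * (((n + 1 : ℕ) : ℝ) + 1) * (21 / 20) * (1 / (2 * M)) :=
          mul_le_mul_of_nonneg_left h1 (by positivity)
      _ = 21 / 20 * (((n + 1 : ℕ) : ℝ) + 1) / M * V := by field_simp


end All

open All in
/-- The final statement. -/
theorem main (hInteg : Stmt_Integ3) (hGen : Stmt_Gen3) (hFLoop : Stmt_FLoop3)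
    (hTr : Stmt_Transc) (hInv : K2C.Stmt_Inv) (hEst : Stmt_Est2) (hXi : Stmt_XiReg3)
    (hCrit : Stmt_Crit) (hASide : Stmt_ASide) (hBSide : Stmt_BSide)
    (hMax : Stmt_Max2) (hKer : Stmt_Ker) (hKer3 : Stmt_Ker3) (hRows : Stmt_Rows2)
    (hFini : Stmt_Fini) (hSm : Stmt_Smooth3)
    {k : Type} [Field k] [NumberField k] {n : ℕ} (c : Pl k n)
    (hα : ∀ i, IsIntegral ℤ (c.α i)) (hl : IsIntegral ℤ c.lam) (σ : k →+* ℂ)
    (hsα : Separated fun i => σ (c.α i)) (hL : 1 ≤ ‖σ c.lam‖) :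
    c.Smooth σ ∧ (∀ ij, Unram (c.eta ij)) ∧ LinearIndependent ℚ c.eta ∧
      ∃ γ : Pr n → Loop c.F, (∀ l, c.Over (γ l) σ) ∧
        ((∀ a, (σ a).im = 0) → ∀ l, Anti (γ l)) ∧ (regM γ c.eta).det ≠ 0 ∧ Spans γ := by
  obtain ⟨r₀, r₁, M, ca, hr01, hM, hS, hma, hca⟩ := hASide (n + 1) _ hsα
  obtain ⟨r, hr1, hr2, hrt⟩ := hTr.1 r₀ r₁ hr01
  have hSr := hS r hr1 hr2
  obtain ⟨ρ, hB, hmb⟩ := hBSide (n + 1) _ hsα
  have hloop := fun lm : Fin (n + 2) × Fin (n + 2) =>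
    loop_exists hTr hFLoop hInv hEst hXi hGen c σ r M ρ hrt hM hSr hB hL lm.1 lm.2
  choose γ R hγo hγa hγR hγE using hloop
  have hunr := fun ij => eta_unram c hInteg hGen hα hl ij
  have hker : ∀ w : Pr n → ℝ, (∀ lm, ∑ ij, (γ lm).reg (c.eta ij) * w ij = 0) → w = 0 := by
    intro w hw
    obtain ⟨W, hW1, hW2⟩ := hKer3 n w
    obtain ⟨v, hv1, hv2, hv3, hv4⟩ := hKer (n + 1) (n + 1) W
    have hv0 := hMax (n + 1) (n + 1) (fun i => σ (c.α i)) (fun j => σ (c.α j))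
      (Real.log ‖σ c.lam‖) (21 / 20 * (((n + 1 : ℕ) : ℝ) + 1) / M) ca (138 / 100)
      (fun l m i j => R (l, m) i j)
      (Real.log_nonneg hL) hma hmb hca (fun l m v V hv => hγE (l, m) v V hv) v hv1 hv2
      (fun l m => by
        rw [← hv4 (R (l, m)), ← hw (l, m)]
        rw [← hW2 (fun i j => R (l, m) i.succ j.succ - R (l, m) i.succ 0 - R (l, m) 0 j.succ +
          R (l, m) 0 0)]
        refine Finset.sum_congr rfl fun ij _ => ?_
        rw [hγR])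
    funext ij
    rw [← hW1, ← hv3, hv0]
    rfl
  obtain ⟨s, hs⟩ := hRows (Fin (n + 2) × Fin (n + 2)) (Pr n)
    (fun lm ij => (γ lm).reg (c.eta ij)) hker
  have hdet : (regM (fun ij => γ (s ij)) c.eta).det ≠ 0 := hs
  obtain ⟨hli, hsp⟩ := hFini c.F (Pr n) _ _ hdet
  refine ⟨?_, hunr, hli, fun ij => γ (s ij), fun l => hγo _, fun hσ l => hγa _ hσ, hdet,
    hsp hunr⟩
  -- smoothness
  have key : ∀ u : ℂ, (derivative (prodX fun i => σ (c.α i))).eval u = 0 →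
      2 < ‖(prodX fun i => σ (c.α i)).eval u‖ := by
    intro u hu
    exact hCrit (n + 2) (Nat.succ_pos _) _ r 2 hSr.pos (by norm_num) hSr.sep
      (fun l x hx => lt_of_lt_of_le (by linarith) (hSr.big l x hx)) u hu
  refine hSm n _ _ (fun i j h => c.inj (σ.injective h)) ?_ ?_
  · intro h
    rw [h, norm_zero] at hL
    linarith
  · intro u v hu hv h
    have h1 := key u hu
    have h2 := key v hv
    have h3 := congrArg norm h
    rw [norm_mul, norm_mul, norm_one] at h3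
    have h4 : 1 * 2 * 2 ≤ ‖σ c.lam‖ * ‖(prodX fun i => σ (c.α i)).eval u‖ *
        ‖(prodX fun i => σ (c.α i)).eval v‖ := by gcongr
    linarith

end

end Pool.Agent.K2D
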