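import Pool.Agent.K2D.Irr
import Pool.Agent.K2C.Defs

/-!
# `K₂` of smooth plane curves: definitions

The plane curve `λ ∏ (t - α_i s + α_i²) = 1` of degree `n + 2`, with `α_0 = 0`.
-/

set_option autoImplicit false

open Polynomial

namespace Pool.Agent.K2D

open Pool.Agent.BEK Pool.Agent.K2B

noncomputable section

/-- The data of a curve `λ ∏ (t - α_i s + α_i²) = 1`: distinct `α_0 = 0, α_1, …, α_{n+1}` and
`λ ≠ 0`. -/
structure Pl (k : Type) [Field k] (n : ℕ) where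
  α : Fin (n + 2) → k
  lam : k
  zero : α 0 = 0
  inj : Function.Injective α
  ne : lam ≠ 0

/-- The pairs `i < j` of elements of `{0, …, n}`. -/
abbrev Pr (n : ℕ) : Type := {ij : Fin (n + 1) × Fin (n + 1) // ij.1 < ij.2}

/-- The homogeneous polynomial `L ∏ (T - a_i S + a_i² U) - U^(n+2)`; the variables `0`, `1`, `2`
are `S`, `T`, `U`. -/
def form {n : ℕ} (a : Fin (n + 2) → ℂ) (L : ℂ) : MvPolynomial (Fin 3) ℂ :=
  MvPolynomial.C L * (∏ i, (MvPolynomial.X 1 - MvPolynomial.C (a i) * MvPolynomial.X 0 +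
    MvPolynomial.C (a i ^ 2) * MvPolynomial.X 2)) - MvPolynomial.X 2 ^ (n + 2)

namespace Pl

variable {k : Type} [Field k] {n : ℕ} (c : Pl k n)

theorem succ_ne (i : Fin (n + 1)) : c.α i.succ ≠ 0 := by
  intro h
  rw [← c.zero] at h
  exact Fin.succ_ne_zero i (c.inj h)

/-- The equation `∏_{i ≥ 1} (t - α_i s + α_i²) - 1/(λ t)` of the curve over `k(t)`. -/
def eq : (RatFunc k)[X] := eqn c.α c.lam

instance : Fact (Irreducible c.eq) := ⟨eqn_irreducible c.α c.lam c.succ_ne c.ne⟩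

/-- The function field `k(t)[s] / (∏_{i ≥ 1} (t - α_i s + α_i²) - 1/(λ t))`. -/
def F : Type := AdjoinRoot c.eq

instance : Field c.F := AdjoinRoot.instField

/-- The inclusion of `k(t)`. -/
def of : RatFunc k →+* c.F := AdjoinRoot.of c.eq

/-- The constants. -/
def cst : k →+* c.F := c.of.comp (RatFunc.C)

/-- The function `t`. -/
def t : c.F := c.of RatFunc.X

/-- The function `s`. -/
def s : c.F := AdjoinRoot.root c.eq

/-- The function `ℓ_i = t - α_i s + α_i²`; thus `ℓ_0 = t`. -/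
def ell (i : Fin (n + 2)) : c.F := c.t - c.cst (c.α i) * c.s + c.cst (c.α i) ^ 2

/-- The element `{α_j/(α_j - α_i) · ℓ_i/ℓ_0, α_i/(α_i - α_j) · ℓ_j/ℓ_0}`,
`1 ≤ i < j ≤ n + 1`. -/
def eta (ij : Pr n) : KQ c.F :=
  K2B.sym
    (c.cst (c.α ij.1.2.succ / (c.α ij.1.2.succ - c.α ij.1.1.succ)) *
      (c.ell ij.1.1.succ / c.ell 0))
    (c.cst (c.α ij.1.1.succ / (c.α ij.1.1.succ - c.α ij.1.2.succ)) *
      (c.ell ij.1.2.succ / c.ell 0))

/-- The loop lies on the curve over `ℂ` obtained from the embedding `σ`. -/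
def Over (γ : Loop c.F) (σ : k →+* ℂ) : Prop := ∀ (θ : ℝ) (a : k), γ.ev θ (c.cst a) = σ a

/-- The projective plane curve `σ(λ) ∏ (T - σ(α_i) S + σ(α_i)² U) = U^(n+2)` is smooth. -/
def Smooth (σ : k →+* ℂ) : Prop :=
  ∀ P : Fin 3 → ℂ, P ≠ 0 →
    MvPolynomial.eval P (form (fun i => σ (c.α i)) (σ c.lam)) = 0 →
    ∃ i, MvPolynomial.eval P
      (MvPolynomial.pderiv i (form (fun i => σ (c.α i)) (σ c.lam))) ≠ 0

end Pl

end

end Pool.Agent.K2D
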