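import Pool.Agent.K2D.Stmts
import Pool.Agent.K2C.EVAL2

/-!
# EVAL3: `(X + Y, X Y)` is a generic point
-/

set_option autoImplicit false

open Polynomial

namespace Pool.Agent.K2D

open Pool.Agent.BEK Pool.Agent.K2B Pool.Agent.K2C

noncomputable section

namespace EvalThree

variable {k : Type} [Field k] (σ : k →+* ℂ)

/-- the relation for `t₀ = X Y` -/
theorem rel {n : ℕ} (c : Pl k n) (X Y : ℂ)
    (h : σ c.lam * (∏ i, (X - σ (c.α i))) * (∏ i, (Y - σ (c.α i))) = 1) :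
    σ c.lam * (X * Y) * (∏ i : Fin (n + 1), ((X - σ (c.α i.succ)) *
      (X * Y - σ (c.α i.succ) * X))) = X ^ (n + 1) := by
  rw [Fin.prod_univ_succ (fun i => X - σ (c.α i)), Fin.prod_univ_succ (fun i => Y - σ (c.α i)),
    c.zero, map_zero, sub_zero, sub_zero] at h
  have h1 : ∀ i : Fin (n + 1), (X - σ (c.α i.succ)) * (X * Y - σ (c.α i.succ) * X) =
      X * ((X - σ (c.α i.succ)) * (Y - σ (c.α i.succ))) := by
    intro i; ring
  rw [Finset.prod_congr rfl fun i _ => h1 i, Finset.prod_mul_distrib, Finset.prod_mul_distrib,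
    Finset.prod_const, Finset.card_univ, Fintype.card_fin]
  calc σ c.lam * (X * Y) * (X ^ (n + 1) * ((∏ i : Fin (n + 1), (X - σ (c.α i.succ))) *
        ∏ i : Fin (n + 1), (Y - σ (c.α i.succ)))) =
      X ^ (n + 1) * (σ c.lam * (X * ∏ i : Fin (n + 1), (X - σ (c.α i.succ))) *
        (Y * ∏ i : Fin (n + 1), (Y - σ (c.α i.succ)))) := by ring
    _ = X ^ (n + 1) := by rw [h, mul_one]

theorem prod_ne {n : ℕ} (c : Pl k n) (X Y : ℂ)
    (h : σ c.lam * (∏ i, (X - σ (c.α i))) * (∏ i, (Y - σ (c.α i))) = 1) : X * Y ≠ 0 := by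
  intro h0
  rw [Fin.prod_univ_succ (fun i => X - σ (c.α i)), Fin.prod_univ_succ (fun i => Y - σ (c.α i)),
    c.zero, map_zero, sub_zero, sub_zero] at h
  have h1 : σ c.lam * (X * ∏ i : Fin (n + 1), (X - σ (c.α i.succ))) *
        (Y * ∏ i : Fin (n + 1), (Y - σ (c.α i.succ))) =
      σ c.lam * (X * Y) * ((∏ i : Fin (n + 1), (X - σ (c.α i.succ))) *
        (∏ i : Fin (n + 1), (Y - σ (c.α i.succ)))) := by ring
  rw [h1, h0] at h
  simp at h

theorem transc {n : ℕ} (c : Pl k n) (X Y : ℂ)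
    (hX : ∀ f : k[X], f ≠ 0 → (f.map σ).eval X ≠ 0)
    (h : σ c.lam * (∏ i, (X - σ (c.α i))) * (∏ i, (Y - σ (c.α i))) = 1) :
    ∀ f : k[X], f ≠ 0 → (f.map σ).eval (X * Y) ≠ 0 := by
  intro f hf hf0
  let _ : Algebra k ℂ := σ.toAlgebra
  have hs : ∀ a : k, algebraMap k ℂ a = σ a := fun a => rfl
  have ht : IsAlgebraic k (X * Y) := by
    refine ⟨f, hf, ?_⟩
    rw [aeval_def, ← eval_map]
    exact hf0
  set A := algebraicClosure k ℂ with hA
  have hm : X * Y ∈ A := mem_algebraicClosure_iff'.2 ht.isIntegral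
  set tA : A := ⟨X * Y, hm⟩ with htA
  set Φ : A[X] := C (algebraMap k A c.lam * tA) * (∏ i : Fin (n + 1),
    ((Polynomial.X - C (algebraMap k A (c.α i.succ))) *
      (C tA - C (algebraMap k A (c.α i.succ)) * Polynomial.X))) - Polynomial.X ^ (n + 1) with hΦ
  have hkA : ∀ a : k, algebraMap A ℂ (algebraMap k A a) = σ a := fun a => rfl
  have hi : Function.Injective (algebraMap k A) := (algebraMap k A).injective
  have h0 : Φ ≠ 0 := by
    intro h0
    have h1 := congrArg (eval 0) h0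
    rw [hΦ, eval_sub, eval_mul, eval_prod, eval_C, eval_pow, eval_X, eval_zero,
      zero_pow (Nat.succ_ne_zero n), sub_zero] at h1
    rcases mul_eq_zero.1 h1 with h2 | h2
    · rcases mul_eq_zero.1 h2 with h3 | h3
      · exact c.ne (hi (h3.trans (map_zero _).symm))
      · exact prod_ne σ c X Y h (congrArg Subtype.val h3)
    · obtain ⟨i, _, h3⟩ := Finset.prod_eq_zero_iff.1 h2
      rw [eval_mul, eval_sub, eval_sub, eval_mul, eval_X, eval_C, eval_C, mul_zero, zero_sub,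
        sub_zero] at h3
      rcases mul_eq_zero.1 h3 with h4 | h4
      · exact c.succ_ne i (hi ((neg_eq_zero.1 h4).trans (map_zero _).symm))
      · exact prod_ne σ c X Y h (congrArg Subtype.val h4)
  have hXA : IsAlgebraic A X := by
    refine ⟨Φ, h0, ?_⟩
    rw [aeval_def, hΦ, eval₂_sub, eval₂_mul, eval₂_C, eval₂_pow, eval₂_X, ← coe_eval₂RingHom,
      map_prod, map_mul, hkA]
    have h5 : ∀ i : Fin (n + 1), (eval₂RingHom (algebraMap A ℂ) X)
        ((Polynomial.X - C (algebraMap k A (c.α i.succ))) *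
          (C tA - C (algebraMap k A (c.α i.succ)) * Polynomial.X)) =
        (X - σ (c.α i.succ)) * (X * Y - σ (c.α i.succ) * X) := by
      intro i
      rw [map_mul, map_sub, map_sub, map_mul, coe_eval₂RingHom, eval₂_X, eval₂_C, eval₂_C, hkA]
      rfl
    rw [Finset.prod_congr rfl fun i _ => h5 i]
    have h6 := rel σ c X Y h
    rw [sub_eq_zero]
    exact h6
  have hXk : IsAlgebraic k X := hXA.restrictScalars k
  obtain ⟨g, hg, hg0⟩ := hXk
  apply hX g hg
  rw [eval_map]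
  exact hg0

theorem root_eq {n : ℕ} (c : Pl k n) (X Y : ℂ)
    (ht : ∀ f : k[X], f ≠ 0 → (f.map σ).eval (X * Y) ≠ 0)
    (h : σ c.lam * (∏ i, (X - σ (c.α i))) * (∏ i, (Y - σ (c.α i))) = 1) :
    c.eq.eval₂ (EvalTwo.evr σ (X * Y) ht) (X + Y) = 0 := by
  have hC : ∀ a : k, algebraMap k[X] (RatFunc k) (C a) = RatFunc.C a := fun a =>
    RatFunc.algebraMap_C a
  unfold Pl.eq eqn lines
  rw [eval₂_sub, eval₂_C, eval₂_map, map_inv₀, EvalTwo.evr_alg, eval₂_mul, eval₂_C, eval₂_X,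
    ← coe_eval₂RingHom, map_prod, sub_eq_zero]
  have h1 : ∀ i : Fin (n + 1), (eval₂RingHom ((EvalTwo.evr σ (X * Y) ht).comp
      (algebraMap k[X] (RatFunc k))) (X + Y))
      (C Polynomial.X - C (C (c.α i.succ)) * Polynomial.X + C (C (c.α i.succ ^ 2))) =
      (X - σ (c.α i.succ)) * (Y - σ (c.α i.succ)) := by
    intro i
    rw [map_add, map_sub, map_mul, coe_eval₂RingHom, eval₂_X, eval₂_C, eval₂_C, eval₂_C,
      RingHom.comp_apply, RingHom.comp_apply, RingHom.comp_apply, EvalTwo.evr_alg,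
      EvalTwo.evr_alg, EvalTwo.evr_alg, eval₂_X, eval₂_C, eval₂_C, map_pow]
    ring
  rw [Finset.prod_congr rfl fun i _ => h1 i]
  apply eq_inv_of_mul_eq_one_right
  rw [Fin.prod_univ_succ (fun i => X - σ (c.α i)), Fin.prod_univ_succ (fun i => Y - σ (c.α i)),
    c.zero, map_zero, sub_zero, sub_zero] at h
  rw [Finset.prod_mul_distrib, ← h]
  ring

end EvalThree

open EvalThree in
theorem eval3_proof : Stmt_Eval3 := by
  intro k _ n c σ X Y hX h
  have ht := transc σ c X Y hX h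
  have e1 : ∀ r : RatFunc k,
      (AdjoinRoot.lift (EvalTwo.evr σ (X * Y) ht) (X + Y) (root_eq σ c X Y ht h) :
      AdjoinRoot c.eq →+* ℂ) (AdjoinRoot.of c.eq r) = EvalTwo.evr σ (X * Y) ht r := fun r =>
    AdjoinRoot.lift_of _
  refine ⟨(AdjoinRoot.lift (EvalTwo.evr σ (X * Y) ht) (X + Y) (root_eq σ c X Y ht h) :
    AdjoinRoot c.eq →+* ℂ), ?_, ?_, ?_⟩
  · intro a
    exact (e1 _).trans (EvalTwo.evr_C σ _ ht a)
  · exact AdjoinRoot.lift_root _
  · exact (e1 _).trans (EvalTwo.evr_X σ _ ht)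

end

end Pool.Agent.K2D
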