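import Pool.Agent.K2D.Stmts

/-!
# GEN3: the function field is generated by the constants and `s`, `t`
-/

set_option autoImplicit false

open Polynomial

namespace Pool.Agent.K2D

open Pool.Agent.BEK Pool.Agent.K2B Pool.Agent.K2C

theorem ell_zero {k : Type} [Field k] {n : ℕ} (c : Pl k n) : c.ell 0 = c.t := by
  unfold Pl.ell
  rw [c.zero, map_zero]
  ring

theorem gen3_proof : Stmt_Gen3 := by
  intro k _ n c
  have hinj : Function.Injective c.of := c.of.injective
  have halg : ∀ a : k, algebraMap k[X] (RatFunc k) (C a) = RatFunc.C a := fun a =>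
    RatFunc.algebraMap_C a
  have ht : c.t ≠ 0 := by
    intro h
    have h1 : (RatFunc.X : RatFunc k) = 0 := hinj (h.trans (map_zero _).symm)
    rw [← RatFunc.algebraMap_X] at h1
    exact X_ne_zero ((map_eq_zero_iff _ (RatFunc.algebraMap_injective k)).1 h1)
  refine ⟨?_, ?_⟩
  · have h0 : c.eq.eval₂ c.of c.s = 0 := AdjoinRoot.eval₂_root c.eq
    have h1 : ((lines c.α).map (algebraMap k[X] (RatFunc k))).eval₂ c.of c.s =
        ∏ i : Fin (n + 1), c.ell i.succ := by
      rw [eval₂_map]
      unfold lines
      rw [← coe_eval₂RingHom, map_prod]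
      refine Finset.prod_congr rfl fun i _ => ?_
      rw [map_add, map_sub, map_mul, coe_eval₂RingHom, eval₂_X, eval₂_C, eval₂_C, eval₂_C,
        RingHom.comp_apply, RingHom.comp_apply, RingHom.comp_apply, halg, halg,
        RatFunc.algebraMap_X, map_pow, map_pow]
      rfl
    have h2 : c.of (algebraMap k[X] (RatFunc k) (C c.lam * X)) = c.cst c.lam * c.t := by
      rw [map_mul, map_mul, halg, RatFunc.algebraMap_X]
      rfl
    unfold Pl.eq eqn at h0
    rw [eval₂_sub, h1, eval₂_C, map_inv₀, h2, sub_eq_zero] at h0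
    rw [Fin.prod_univ_succ, h0, ell_zero, ← mul_assoc]
    refine mul_inv_cancel₀ (mul_ne_zero ?_ ht)
    rw [Ne, map_eq_zero]
    exact c.ne
  · intro S hS hX hY
    have h1 : ∀ r : k[X], c.of (algebraMap k[X] (RatFunc k) r) ∈ S := by
      intro r
      induction r using Polynomial.induction_on' with
      | add p q hp hq =>
        rw [map_add, map_add]
        exact S.add_mem hp hq
      | monomial n a =>
        rw [← C_mul_X_pow_eq_monomial, map_mul, map_mul, map_pow, map_pow, halg,
          RatFunc.algebraMap_X]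
        exact S.mul_mem (hS a) (S.pow_mem hY n)
    have h2 : ∀ r : RatFunc k, c.of r ∈ S := by
      intro r
      obtain ⟨a, b, hb, rfl⟩ := IsFractionRing.div_surjective (A := k[X]) r
      rw [map_div₀]
      exact S.div_mem (h1 a) (h1 b)
    have h3 : ∀ P : (RatFunc k)[X], (AdjoinRoot.mk c.eq P : c.F) ∈ S := by
      intro P
      induction P using Polynomial.induction_on' with
      | add p q hp hq =>
        rw [map_add]
        exact S.add_mem hp hq
      | monomial n a =>
        rw [← C_mul_X_pow_eq_monomial, map_mul, map_pow]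
        exact S.mul_mem (h2 a) (S.pow_mem hX n)
    rw [eq_top_iff]
    intro f _
    obtain ⟨P, rfl⟩ := AdjoinRoot.mk_surjective (g := c.eq) f
    exact h3 P

end Pool.Agent.K2D
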