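import Pool.Agent.K2D.Stmts
import Pool.Agent.K2C.INTEG2
import Pool.Agent.BEK.TAME

/-!
# Squad K2D, module INTEG3: the tame symbols are trivial
-/

set_option autoImplicit false

namespace Pool.Agent.K2D

open Pool.Agent.BEK Pool.Agent.BEK.Unr Pool.Agent.K2B.Integ Pool.Agent.K2C.Integ2

namespace Integ3

variable {F : Type} [Field F] {v : DV F}

/-- the tame symbol of `-w` and `w` -/
theorem tame_neg_self (w : Fˣ) : v.tame (-w) w = 1 := by
  rw [v.tame_eq_one]
  have h1 : ((v.tu (-w) w : v.U) : Fˣ) = 1 := by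
    show (-1) ^ (v.ord (-w) * v.ord w) * (-w) ^ v.ord w * (w ^ v.ord (-w))⁻¹ = _
    have e : -w = (-1) * w := by simp
    have e1 : v.ord (-w) = v.ord w := by
      rw [e, v.mul, v.neg_one, zero_add]
    rw [e1, e, mul_zpow]
    have e2 : (-1 : Fˣ) ^ (v.ord w * v.ord w) * ((-1) ^ v.ord w * w ^ v.ord w) *
        (w ^ v.ord w)⁻¹ = (-1 : Fˣ) ^ (v.ord w * v.ord w) * (-1) ^ v.ord w := by
      rw [← mul_assoc, mul_inv_cancel_right]
    rw [e2, ← zpow_add]
    apply Even.neg_one_zpow
    have : v.ord w * v.ord w + v.ord w = v.ord w * (v.ord w + 1) := by ring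
    rw [this]
    exact Int.even_mul_succ_self _
  rw [h1]
  exact one_mem _

/-- if `u + w` is a `1`-unit, the tame symbol is trivial -/
theorem tame_of_add {u w e : Fˣ} (he : e ∈ v.U1) (h : (u : F) + w = e) :
    v.tame u w = 1 := by
  have h1 : v.tame (u * e⁻¹) (w * e⁻¹) = 1 := by
    apply tame_proof
    rw [Units.val_mul, Units.val_mul, ← add_mul, h, ← Units.val_mul, mul_inv_cancel,
      Units.val_one]
  have hu : u = (u * e⁻¹) * e := by rw [inv_mul_cancel_right]
  have hw : w = (w * e⁻¹) * e := by rw [inv_mul_cancel_right]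
  rw [hu, hw, v.tame_mul_left, tame_left he, mul_one, v.tame_mul_right, tame_right he,
    mul_one, h1]

/-- if `u = - e w` with a `1`-unit `e`, the tame symbol is trivial -/
theorem tame_of_ratio {u w e : Fˣ} (he : e ∈ v.U1) (h : u = -w * e) :
    v.tame u w = 1 := by
  rw [h, v.tame_mul_left, tame_left he, mul_one, tame_neg_self]

end Integ3

open Integ3 in
theorem integ3_proof : Stmt_Integ3 := by
  intro k F _ _ c n α lam s t l hα hα0 hint hlam hl hrel v i j hi hj hij u w hu hw
  have hIα : ∀ i, I v (c (α i)) := fun i => I_of_integral ((hint i).map c.toIntAlgHom)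
  have hIl : I v (c lam) := I_of_integral (hlam.map c.toIntAlgHom)
  set a : F := c (α i) with ha
  set b : F := c (α j) with hb
  have ha0 : a ≠ 0 := by
    rw [ha, Ne, map_eq_zero]
    intro h
    exact hi (hα (h.trans hα0.symm))
  have hb0 : b ≠ 0 := by
    rw [hb, Ne, map_eq_zero]
    intro h
    exact hj (hα (h.trans hα0.symm))
  have hab : a - b ≠ 0 := by
    rw [ha, hb, sub_ne_zero]
    intro h
    exact hij (hα (c.injective h))
  have hba : b - a ≠ 0 := by
    intro h
    apply hab
    rw [← neg_sub, h, neg_zero]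
  have hprod : ∏ i, l i ≠ 0 := by
    intro h
    rw [h, mul_zero] at hrel
    exact zero_ne_one hrel
  have hl0 : ∀ m, l m ≠ 0 := fun m => Finset.prod_ne_zero_iff.mp hprod m (Finset.mem_univ m)
  have hlt : l 0 = t := by
    rw [hl 0, hα0, map_zero]
    ring
  have hli : l i = t - a * s + a ^ 2 := hl i
  have hlj : l j = t - b * s + b ^ 2 := hl j
  have ht0 : t ≠ 0 := hlt ▸ hl0 0
  set F0 : F := t / (a * b) with hF0
  set Fi : F := l i / (a * (a - b)) with hFi
  set Fj : F := l j / (b * (b - a)) with hFj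
  have hF00 : F0 ≠ 0 := div_ne_zero ht0 (mul_ne_zero ha0 hb0)
  have hFi0 : Fi ≠ 0 := div_ne_zero (hl0 i) (mul_ne_zero ha0 hab)
  have hFj0 : Fj ≠ 0 := div_ne_zero (hl0 j) (mul_ne_zero hb0 hba)
  have hsum : F0 + Fi + Fj = 1 := by
    rw [hF0, hFi, hFj, hli, hlj]
    have e : b - a = -(a - b) := by ring
    rw [e]
    field_simp
    ring
  have hu' : (u : F) = -Fi / F0 := by
    rw [hu, hlt, map_div₀, map_sub, ← ha, ← hb, hFi, hF0]
    have e : b - a = -(a - b) := by ring
    rw [e]
    field_simp
  have hw' : (w : F) = -Fj / F0 := by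
    rw [hw, hlt, map_div₀, map_sub, ← ha, ← hb, hFj, hF0]
    have e : b - a = -(a - b) := by ring
    rw [e]
    field_simp
  by_cases h1 : o v F0 < 0
  · -- the sum of `u` and `w` is a `1`-unit
    have hE : Eqv v (1 - F0⁻¹) 1 := by
      refine ⟨Un_one, ?_⟩
      have e : 1 - F0⁻¹ - 1 = -F0⁻¹ := by ring
      rw [e]
      apply M.neg
      right
      rw [o_inv]
      omega
    have hE0 : 1 - F0⁻¹ ≠ 0 := hE.un.1
    refine tame_of_add (e := Units.mk0 _ hE0) (mem_U1 hE) ?_
    rw [hu', hw', Units.val_mk0]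
    have e : Fj = 1 - F0 - Fi := by linear_combination hsum
    rw [e]
    field_simp
    ring
  have hI0 : I v F0 := Or.inr (not_lt.mp h1)
  by_cases h2 : o v Fi < 0
  · -- `u` and `w` have a pole
    have h3 : o v Fj < 0 := by
      by_contra h3
      have hIj : I v Fj := Or.inr (not_lt.mp h3)
      have e : Fi = 1 - F0 - Fj := by linear_combination hsum
      have hIi : I v Fi := by
        rw [e]
        exact (I_one.sub hI0).sub hIj
      rcases hIi with h | h
      · exact hFi0 h
      · omega
    have hE : Eqv v (-Fi / Fj) 1 := by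
      refine ⟨Un_one, ?_⟩
      have e : -Fi / Fj - 1 = (F0 - 1) * Fj⁻¹ := by
        have e' : F0 = 1 - Fi - Fj := by linear_combination hsum
        rw [e']
        field_simp
        ring
      rw [e]
      refine (hI0.sub I_one).mul_M (Or.inr ?_)
      rw [o_inv]
      omega
    have hE0 : -Fi / Fj ≠ 0 := hE.un.1
    refine tame_of_ratio (e := Units.mk0 _ hE0) (mem_U1 hE) ?_
    apply Units.ext
    rw [Units.val_mul, Units.val_neg, Units.val_mk0, hu', hw']
    field_simp
  -- everything is integral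
  have hIi : I v Fi := Or.inr (not_lt.mp h2)
  have hIj : I v Fj := by
    have e : Fj = 1 - F0 - Fi := by linear_combination hsum
    rw [e]
    exact (I_one.sub hI0).sub hIi
  have hIa : I v a := hIα i
  have hIb : I v b := hIα j
  have hIs : I v s := by
    have e : s = F0 * (a + b) + Fi * b + Fj * a := by
      rw [hF0, hFi, hFj, hli, hlj]
      have e : b - a = -(a - b) := by ring
      rw [e]
      field_simp
      ring
    rw [e]
    exact ((hI0.mul (hIa.add hIb)).add (hIi.mul hIb)).add (hIj.mul hIa)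
  have hFt : t = F0 * (a * b) := by
    rw [hF0]
    field_simp
  have hFli : l i = Fi * (a * (a - b)) := by
    rw [hFi]
    field_simp
  have hFlj : l j = Fj * (b * (b - a)) := by
    rw [hFj]
    field_simp
  have hIt : I v t := by
    rw [hFt]
    exact hI0.mul (hIa.mul hIb)
  have hIl' : ∀ m, I v (l m) := by
    intro m
    rw [hl m]
    exact (hIt.sub ((hIα m).mul hIs)).add ((hIα m).pow 2)
  have hUprod : Un v (∏ i, l i) := by
    have h : Un v (c lam * ∏ i, l i) := by
      rw [hrel]
      exact Un_one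
    exact h.right_of_mul hIl (I_prod _ _ fun m _ => hIl' m)
  have hUl : ∀ m, Un v (l m) := fun m => Un_of_prod l hIl' hUprod m
  have hUt : Un v t := hlt ▸ hUl 0
  have hUab : Un v (a * b) := by
    have h := hUt
    rw [hFt] at h
    exact h.right_of_mul hI0 (hIa.mul hIb)
  have hUa : Un v a := hUab.left_of_mul hIa hIb
  have hUb : Un v b := hUab.right_of_mul hIa hIb
  have hUab' : Un v (a - b) := by
    have h := hUl i
    rw [hFli] at h
    exact (h.right_of_mul hIi (hIa.mul (hIa.sub hIb))).right_of_mul hIa (hIa.sub hIb)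
  have hUba' : Un v (b - a) := by
    have h := hUab'.neg
    rwa [neg_sub] at h
  apply tame_units
  · rw [hu, map_div₀, map_sub]
    exact (hUb.div hUba').mul ((hUl i).div (hUl 0))
  · rw [hw, map_div₀, map_sub]
    exact (hUa.div hUab').mul ((hUl j).div (hUl 0))

end Pool.Agent.K2D
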