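import Pool.Agent.K2C.Irr

/-!
# Irreducibility of `∏ (t - α_i s + α_i²) - 1/(λ t)` over `k(t)`
-/

set_option autoImplicit false

open Polynomial

namespace Pool.Agent.K2D

noncomputable section

variable {k : Type} [Field k]

/-- The polynomial `∏_{i ≥ 1} (t - α_i s + α_i²)` in `s` over `k[t]`. -/
def lines {n : ℕ} (α : Fin (n + 2) → k) : k[X][X] :=
  ∏ i : Fin (n + 1), (C X - C (C (α i.succ)) * X + C (C (α i.succ ^ 2)))

/-- The polynomial `∏_{i ≥ 1} (t - α_i s + α_i²) - 1/(λ t)` in `s` over the field `k(t)`. -/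
def eqn {n : ℕ} (α : Fin (n + 2) → k) (lam : k) : (RatFunc k)[X] :=
  (lines α).map (algebraMap k[X] (RatFunc k)) - C (algebraMap k[X] (RatFunc k) (C lam * X))⁻¹

namespace Irr

theorem line_eq (a : k) : (C X - C (C a) * X + C (C (a ^ 2)) : k[X][X]) =
    C (-(C a)) * X + C (X + C (a ^ 2)) := by
  simp only [C_neg, C_add]
  ring

theorem natDegree_line {a : k} (ha : a ≠ 0) :
    (C X - C (C a) * X + C (C (a ^ 2)) : k[X][X]).natDegree = 1 := by
  rw [line_eq]
  exact natDegree_linear (neg_ne_zero.2 (C_ne_zero.2 ha))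

theorem leadingCoeff_line {a : k} (ha : a ≠ 0) :
    (C X - C (C a) * X + C (C (a ^ 2)) : k[X][X]).leadingCoeff = -(C a) := by
  rw [line_eq]
  exact leadingCoeff_linear (neg_ne_zero.2 (C_ne_zero.2 ha))

theorem natDegree_lines {n : ℕ} (α : Fin (n + 2) → k) (hα : ∀ i : Fin (n + 1), α i.succ ≠ 0) :
    (lines α).natDegree = n + 1 := by
  unfold lines
  rw [natDegree_prod _ _ fun i _ => ?_]
  · rw [Finset.sum_congr rfl fun i _ => natDegree_line (hα i)]
    simp
  · intro h
    have := natDegree_line (hα i)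
    rw [h] at this
    simp at this

theorem leadingCoeff_lines {n : ℕ} (α : Fin (n + 2) → k) (hα : ∀ i : Fin (n + 1), α i.succ ≠ 0) :
    (lines α).leadingCoeff = C (∏ i : Fin (n + 1), -(α i.succ)) := by
  unfold lines
  rw [leadingCoeff_prod, Finset.prod_congr rfl fun i _ => leadingCoeff_line (hα i)]
  simp

/-- the reversed polynomial over `k[t]` -/
def FR {n : ℕ} (α : Fin (n + 2) → k) (lam : k) : k[X][X] :=
  X ^ (n + 1) - C (C lam * X) * (lines α).reverse

theorem coeff_FR {n : ℕ} (α : Fin (n + 2) → k) (lam : k) (i : ℕ) :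
    (FR α lam).coeff i = (if i = n + 1 then 1 else 0) -
      C lam * X * ((lines α).reverse).coeff i := by
  unfold FR
  rw [coeff_sub, coeff_X_pow, coeff_C_mul]

theorem mem_P (lam : k) (r : k[X]) : C lam * X * r ∈ (Ideal.span {X} : Ideal k[X]) := by
  rw [Ideal.mem_span_singleton]
  exact ⟨C lam * r, by ring⟩

theorem degree_FR {n : ℕ} (α : Fin (n + 2) → k) (lam : k)
    (hα : ∀ i : Fin (n + 1), α i.succ ≠ 0) :
    (FR α lam).coeff (n + 1) ∉ (Ideal.span {X} : Ideal k[X]) ∧
      (FR α lam).natDegree = n + 1 := by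
  have hP : (Ideal.span {X} : Ideal k[X]).IsPrime :=
    (Ideal.span_singleton_prime X_ne_zero).2 prime_X
  have h1 : (FR α lam).coeff (n + 1) ∉ (Ideal.span {X} : Ideal k[X]) := by
    rw [coeff_FR, if_pos rfl]
    intro h
    have h3 := Ideal.add_mem _ h (mem_P lam (((lines α).reverse).coeff (n + 1)))
    rw [sub_add_cancel] at h3
    exact hP.ne_top ((Ideal.eq_top_iff_one _).2 h3)
  refine ⟨h1, ?_⟩
  apply le_antisymm
  · unfold FR
    refine (natDegree_sub_le _ _).trans (max_le (natDegree_X_pow_le _) ?_)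
    refine (natDegree_C_mul_le _ _).trans ((reverse_natDegree_le _).trans ?_)
    rw [natDegree_lines α hα]
  · apply le_natDegree_of_ne_zero
    intro h
    rw [h] at h1
    exact h1 (Ideal.zero_mem _)

theorem irr_FR {n : ℕ} (α : Fin (n + 2) → k) (lam : k)
    (hα : ∀ i : Fin (n + 1), α i.succ ≠ 0) (hl : lam ≠ 0) :
    Irreducible (FR α lam) ∧ (FR α lam).IsPrimitive := by
  have hP : (Ideal.span {X} : Ideal k[X]).IsPrime :=
    (Ideal.span_singleton_prime X_ne_zero).2 prime_X
  obtain ⟨h1, h2⟩ := degree_FR α lam hα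
  set d : k := ∏ i : Fin (n + 1), -(α i.succ) with hd
  have hd0 : d ≠ 0 := Finset.prod_ne_zero_iff.2 fun i _ => neg_ne_zero.2 (hα i)
  have hc0 : ((lines α).reverse).coeff 0 = C d := by
    rw [coeff_zero_reverse, leadingCoeff_lines α hα]
  have hu : IsUnit (C (lam * d) : k[X]) :=
    isUnit_C.2 (isUnit_iff_ne_zero.2 (mul_ne_zero hl hd0))
  have e0 : C lam * X * ((lines α).reverse).coeff 0 = C (lam * d) * X := by
    rw [hc0, C_mul]; ring
  have hprim : (FR α lam).IsPrimitive := by
    intro r hr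
    rw [C_dvd_iff_dvd_coeff] at hr
    have h3 := hr 0
    have h4 := hr (n + 1)
    rw [coeff_FR, if_neg (by omega), e0, zero_sub, dvd_neg, hu.dvd_mul_left] at h3
    rw [coeff_FR, if_pos rfl] at h4
    have h5 : r ∣ C lam * X * ((lines α).reverse).coeff (n + 1) :=
      (h3.mul_left (C lam)).mul_right _
    have h6 := dvd_add h4 h5
    rw [sub_add_cancel] at h6
    exact isUnit_of_dvd_one h6
  refine ⟨irreducible_of_eisenstein_criterion hP ?_ ?_ ?_ ?_ hprim, hprim⟩
  · rw [leadingCoeff, h2]; exact h1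
  · intro i hi
    have hi' : i < n + 1 := by
      rw [← h2]
      exact (coe_lt_degree.1 hi)
    rw [coeff_FR, if_neg (by omega), zero_sub]
    exact neg_mem (mem_P _ _)
  · rw [← natDegree_pos_iff_degree_pos, h2]; omega
  · rw [coeff_FR, if_neg (by omega), e0, zero_sub]
    intro h
    have h7 : C (lam * d) * X ∈ (Ideal.span {X} : Ideal k[X]) ^ 2 := by simpa using neg_mem h
    rw [Ideal.span_singleton_pow, Ideal.mem_span_singleton, hu.dvd_mul_left, pow_two] at h7
    have h8 : (X * X : k[X]) ∣ X * 1 := by rwa [mul_one]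
    have h9 := (mul_dvd_mul_iff_left (X_ne_zero (R := k))).1 h8
    exact not_isUnit_X (isUnit_of_dvd_one h9)

end Irr

open Irr in
theorem eqn_irreducible {n : ℕ} (α : Fin (n + 2) → k) (lam : k)
    (hα : ∀ i : Fin (n + 1), α i.succ ≠ 0) (hl : lam ≠ 0) : Irreducible (eqn α lam) := by
  classical
  obtain ⟨h1, h2⟩ := irr_FR α lam hα hl
  let _ : NormalizedGCDMonoid k[X] := Classical.choice inferInstance
  have h3 : Irreducible ((FR α lam).map (algebraMap k[X] (RatFunc k))) :=
    (h2.irreducible_iff_irreducible_map_fraction_map).1 h1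
  have hinj := RatFunc.algebraMap_injective k
  set A : k[X] := C lam * X with hA
  have hA0 : A ≠ 0 := mul_ne_zero (C_ne_zero.2 hl) X_ne_zero
  set a : RatFunc k := algebraMap k[X] (RatFunc k) A with ha
  have ha0 : a ≠ 0 := (map_ne_zero_iff _ hinj).2 hA0
  set B : (RatFunc k)[X] := (lines α).map (algebraMap k[X] (RatFunc k)) with hB
  have hBd : B.natDegree = n + 1 := by
    rw [hB, natDegree_map_eq_of_injective hinj, natDegree_lines α hα]
  have hf : eqn α lam = B - C a⁻¹ := rfl
  have hfd : (eqn α lam).natDegree = n + 1 := by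
    rw [hf, natDegree_sub_C, hBd]
  have hrev : (eqn α lam).reverse = B.reverse - C a⁻¹ * X ^ (n + 1) := by
    rw [reverse, hfd, hf, reflect_sub, reflect_C, reverse, hBd]
  have hFR : (FR α lam).map (algebraMap k[X] (RatFunc k)) =
      C (-a) * (eqn α lam).reverse := by
    have e1 : ((lines α).reverse).map (algebraMap k[X] (RatFunc k)) = B.reverse := by
      rw [reverse, reverse, hBd, natDegree_lines α hα, ← reflect_map]
    unfold FR
    rw [Polynomial.map_sub, Polynomial.map_pow, map_X, Polynomial.map_mul, map_C, e1, ← hA, ← ha,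
      hrev, mul_sub, ← mul_assoc, ← C_mul, neg_mul, mul_inv_cancel₀ ha0]
    simp only [C_neg, C_1]
    ring
  have h4 : Irreducible (eqn α lam).reverse := by
    rw [hFR] at h3
    have hu : IsUnit (C (-a) : (RatFunc k)[X]) :=
      isUnit_C.2 (isUnit_iff_ne_zero.2 (neg_ne_zero.2 ha0))
    exact (irreducible_isUnit_mul hu).1 h3
  have h5 : ((eqn α lam).reverse).natDegree = n + 1 := by
    have e := congrArg natDegree hFR
    rw [natDegree_map_eq_of_injective hinj, (degree_FR α lam hα).2,
      natDegree_C_mul (neg_ne_zero.2 ha0)] at e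
    exact e.symm
  refine K2C.Irr.irr_of_reverse _ (by rw [hfd]; omega) ?_ h4
  intro h0
  have h6 := natDegree_eq_reverse_natDegree_add_natTrailingDegree (eqn α lam)
  rw [hfd, h5] at h6
  have h7 : (eqn α lam).natTrailingDegree = 0 := by omega
  rw [natTrailingDegree_eq_zero] at h7
  rcases h7 with h7 | h7
  · rw [h7] at hfd; simp at hfd
  · exact h7 h0

end

end Pool.Agent.K2D
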