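import Pool.Agent.K2D.Stmts

set_option autoImplicit false

/-! # KER3 -/

namespace Pool.Agent.K2D

theorem ker3_proof : Stmt_Ker3 := by
  classical
  intro n w
  let e : Fin (n + 1) × Fin (n + 1) → ℝ := fun ij =>
    if h : ij.1 < ij.2 then w ⟨ij, h⟩ else 0
  refine ⟨fun ij => e ij - e ij.swap, ?_, ?_⟩
  · intro ij
    have h1 : e ij.1 = w ij := by
      show (if h : ij.1.1 < ij.1.2 then w ⟨ij.1, h⟩ else 0) = w ij
      rw [dif_pos ij.2]
    have h2 : e ij.1.swap = 0 := by
      show (if h : ij.1.2 < ij.1.1 then w ⟨ij.1.swap, h⟩ else 0) = 0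
      rw [dif_neg (not_lt.2 ij.2.le)]
    show e ij.1 - e ij.1.swap = w ij
    rw [h1, h2, sub_zero]
  · intro R
    have h1 : ∀ f : Fin (n + 1) × Fin (n + 1) → ℝ,
        ∑ ij : Pr n, f ij.1 * w ij = ∑ ij : Fin (n + 1) × Fin (n + 1), f ij * e ij := by
      intro f
      have h2 : ∀ ij : Pr n, f ij.1 * w ij = f ij.1 * e ij.1 := by
        intro ij
        congr 1
        show w ij = (if h : ij.1.1 < ij.1.2 then w ⟨ij.1, h⟩ else 0)
        rw [dif_pos ij.2]
      rw [Finset.sum_congr rfl fun ij _ => h2 ij]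
      rw [← Finset.sum_subtype
        (Finset.univ.filter fun ij : Fin (n + 1) × Fin (n + 1) => ij.1 < ij.2)
        (fun x => by simp) (fun ij => f ij * e ij)]
      refine Finset.sum_subset (Finset.subset_univ _) fun ij _ hij => ?_
      have h3 : ¬ ij.1 < ij.2 := fun h => hij (Finset.mem_filter.2 ⟨Finset.mem_univ _, h⟩)
      have h4 : e ij = 0 := by
        show (if h : ij.1 < ij.2 then w ⟨ij, h⟩ else 0) = 0
        rw [dif_neg h3]
      rw [h4, mul_zero]
    rw [h1 (fun ij => R ij.1 ij.2 - R ij.2 ij.1)]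
    have h5 : ∑ ij : Fin (n + 1) × Fin (n + 1), R ij.1 ij.2 * e ij.swap =
        ∑ ij : Fin (n + 1) × Fin (n + 1), R ij.2 ij.1 * e ij := by
      rw [← Equiv.sum_comp (Equiv.prodComm (Fin (n + 1)) (Fin (n + 1)))]
      rfl
    simp only [mul_sub, sub_mul, Finset.sum_sub_distrib]
    rw [h5]

end Pool.Agent.K2D
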