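import Pool.Agent.K2D.Stmts

/-!
# SMOOTH3: smoothness of the plane curve
-/

set_option autoImplicit false

open Polynomial

namespace Pool.Agent.K2D

open Pool.Agent.BEK Pool.Agent.K2B Pool.Agent.K2C

noncomputable section

namespace SmoothThree

theorem pderiv_prod {σ ι : Type} [DecidableEq ι] (k : σ) (s : Finset ι)
    (f : ι → MvPolynomial σ ℂ) :
    MvPolynomial.pderiv k (∏ i ∈ s, f i) =
      ∑ i ∈ s, (∏ j ∈ s.erase i, f j) * MvPolynomial.pderiv k (f i) := by
  induction s using Finset.induction_on with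
  | empty => simp
  | insert a s ha ih =>
    rw [Finset.prod_insert ha, MvPolynomial.pderiv_mul, ih, Finset.sum_insert ha,
      Finset.erase_insert ha]
    have h : ∀ i ∈ s, (∏ j ∈ (insert a s).erase i, f j) * MvPolynomial.pderiv k (f i) =
        f a * ((∏ j ∈ s.erase i, f j) * MvPolynomial.pderiv k (f i)) := by
      intro i hi
      have hne : a ≠ i := fun h => ha (h ▸ hi)
      rw [Finset.erase_insert_of_ne hne, Finset.prod_insert (by simp [ha])]
      ring
    rw [Finset.sum_congr rfl h, ← Finset.mul_sum]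
    ring

/-- the linear form -/
def lin (a : ℂ) : MvPolynomial (Fin 3) ℂ :=
  MvPolynomial.X 1 - MvPolynomial.C a * MvPolynomial.X 0 +
    MvPolynomial.C (a ^ 2) * MvPolynomial.X 2

theorem eval_lin (a : ℂ) (P : Fin 3 → ℂ) :
    MvPolynomial.eval P (lin a) = P 1 - a * P 0 + a ^ 2 * P 2 := by
  simp [lin]

theorem d0_lin (a : ℂ) : MvPolynomial.pderiv 0 (lin a) = -MvPolynomial.C a := by
  unfold lin
  rw [map_add, map_sub, MvPolynomial.pderiv_C_mul, MvPolynomial.pderiv_C_mul,
    MvPolynomial.pderiv_X_self, MvPolynomial.pderiv_X_of_ne (by decide),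
    MvPolynomial.pderiv_X_of_ne (by decide)]
  ring

theorem d1_lin (a : ℂ) : MvPolynomial.pderiv 1 (lin a) = 1 := by
  unfold lin
  rw [map_add, map_sub, MvPolynomial.pderiv_C_mul, MvPolynomial.pderiv_C_mul,
    MvPolynomial.pderiv_X_self, MvPolynomial.pderiv_X_of_ne (by decide),
    MvPolynomial.pderiv_X_of_ne (by decide)]
  ring

variable {n : ℕ} (a : Fin (n + 2) → ℂ) (L : ℂ) (P : Fin 3 → ℂ)

/-- value of a linear form -/
def el (i : Fin (n + 2)) : ℂ := P 1 - a i * P 0 + a i ^ 2 * P 2

/-- product of the other linear forms -/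
def ee (i : Fin (n + 2)) : ℂ := ∏ j ∈ Finset.univ.erase i, el a P j

theorem form_eq : form a L = MvPolynomial.C L * (∏ i, lin (a i)) - MvPolynomial.X 2 ^ (n + 2) :=
  rfl

theorem eval_form : MvPolynomial.eval P (form a L) = L * (∏ i, el a P i) - P 2 ^ (n + 2) := by
  rw [form_eq, map_sub, map_mul, map_pow, map_prod, MvPolynomial.eval_C, MvPolynomial.eval_X]
  congr 2
  exact Finset.prod_congr rfl fun i _ => eval_lin _ _

theorem eval_d0 : MvPolynomial.eval P (MvPolynomial.pderiv 0 (form a L)) =
    -(L * ∑ i, a i * ee a P i) := by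
  rw [form_eq, map_sub, MvPolynomial.pderiv_C_mul, MvPolynomial.pderiv_pow,
    MvPolynomial.pderiv_X_of_ne (by decide), mul_zero, sub_zero, pderiv_prod, map_mul, map_sum,
    MvPolynomial.eval_C, ← mul_neg, ← Finset.sum_neg_distrib]
  congr 1
  refine Finset.sum_congr rfl fun i _ => ?_
  rw [map_mul, map_prod, d0_lin, map_neg, MvPolynomial.eval_C]
  unfold ee
  rw [Finset.prod_congr rfl fun j _ => eval_lin (a j) P]
  unfold el
  ring

theorem eval_d1 : MvPolynomial.eval P (MvPolynomial.pderiv 1 (form a L)) =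
    L * ∑ i, ee a P i := by
  rw [form_eq, map_sub, MvPolynomial.pderiv_C_mul, MvPolynomial.pderiv_pow,
    MvPolynomial.pderiv_X_of_ne (by decide), mul_zero, sub_zero, pderiv_prod, map_mul, map_sum,
    MvPolynomial.eval_C]
  congr 1
  refine Finset.sum_congr rfl fun i _ => ?_
  rw [map_mul, map_prod, d1_lin, map_one, mul_one]
  unfold ee
  rw [Finset.prod_congr rfl fun j _ => eval_lin (a j) P]
  rfl

theorem deriv_prodX (x : ℂ) : (derivative (prodX a)).eval x =
    ∑ i, ∏ j ∈ Finset.univ.erase i, (x - a j) := by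
  unfold prodX
  rw [derivative_prod_finset, eval_finsetSum]
  refine Finset.sum_congr rfl fun i _ => ?_
  rw [derivative_X_sub_C, mul_one, eval_prod]
  refine Finset.prod_congr rfl fun j _ => ?_
  rw [eval_sub, eval_X, eval_C]

theorem eval_prodX (x : ℂ) : (prodX a).eval x = ∏ i, (x - a i) := by
  unfold prodX
  rw [eval_prod]
  refine Finset.prod_congr rfl fun j _ => ?_
  rw [eval_sub, eval_X, eval_C]

theorem roots_exist {S T U : ℂ} (hU : U ≠ 0) : ∃ x y : ℂ, S = U * (x + y) ∧ T = U * (x * y) := by
  obtain ⟨d, hd⟩ := IsAlgClosed.exists_pow_nat_eq (S ^ 2 - 4 * U * T) (n := 2) (by norm_num)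
  refine ⟨(S + d) / (2 * U), (S - d) / (2 * U), ?_, ?_⟩
  · field_simp
    ring
  · field_simp
    linear_combination hd

/-- the key computation in the affine part -/
theorem key {U x y : ℂ} (hU : U ≠ 0) (h0 : P 0 = U * (x + y)) (h1 : P 1 = U * (x * y))
    (h2 : P 2 = U) (hy : ∀ i, a i - y ≠ 0) (hs : ∑ i, (a i - y) * ee a P i = 0) :
    (derivative (prodX a)).eval x = 0 := by
  have hel : ∀ j, el a P j = U * ((a j - x) * (a j - y)) := by
    intro j
    unfold el
    rw [h0, h1, h2]
    ring
  have hee : ∀ i, (a i - y) * ee a P i =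
      (-U) ^ (n + 1) * (∏ j, (a j - y)) * ∏ j ∈ Finset.univ.erase i, (x - a j) := by
    intro i
    unfold ee
    rw [Finset.prod_congr rfl fun j _ => hel j,
      ← Finset.mul_prod_erase Finset.univ (fun j => a j - y) (Finset.mem_univ i)]
    have hc : (Finset.univ.erase i : Finset (Fin (n + 2))).card = n + 1 := by
      rw [Finset.card_erase_of_mem (Finset.mem_univ i)]
      simp
    have : (∏ j ∈ Finset.univ.erase i, U * ((a j - x) * (a j - y))) =
        (-U) ^ (n + 1) * ((∏ j ∈ Finset.univ.erase i, (a j - y)) *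
          ∏ j ∈ Finset.univ.erase i, (x - a j)) := by
      rw [← hc, ← Finset.prod_const, ← Finset.prod_mul_distrib, ← Finset.prod_mul_distrib]
      refine Finset.prod_congr rfl fun j _ => ?_
      ring
    rw [this]
    ring
  rw [Finset.sum_congr rfl fun i _ => hee i, ← Finset.mul_sum] at hs
  rw [deriv_prodX]
  rcases mul_eq_zero.1 hs with h | h
  · exfalso
    rcases mul_eq_zero.1 h with h | h
    · exact hU (neg_eq_zero.1 (pow_eq_zero_iff (by omega) |>.1 h))
    · rw [Finset.prod_eq_zero_iff] at h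
      obtain ⟨j, _, hj⟩ := h
      exact hy j hj
  · exact h

end SmoothThree

open SmoothThree in
theorem smooth3_proof : Stmt_Smooth3 := by
  intro n a L ha hL hcrit P hP hG
  by_contra hcon
  push Not at hcon
  have g0 := hcon 0
  have g1 := hcon 1
  rw [eval_d0, neg_eq_zero] at g0
  rw [eval_d1] at g1
  rw [eval_form] at hG
  have s0 : ∑ i, a i * ee a P i = 0 := (mul_eq_zero.1 g0).resolve_left hL
  have s1 : ∑ i, ee a P i = 0 := (mul_eq_zero.1 g1).resolve_left hL
  by_cases hU : P 2 = 0
  · rw [hU, zero_pow (by omega), sub_zero] at hG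
    have h3 := (mul_eq_zero.1 hG).resolve_left hL
    rw [Finset.prod_eq_zero_iff] at h3
    obtain ⟨i, _, hi⟩ := h3
    have hi2 : P 1 = a i * P 0 := by
      unfold el at hi
      rw [hU] at hi
      linear_combination hi
    have hS : P 0 ≠ 0 := by
      intro h
      apply hP
      funext j
      fin_cases j
      · exact h
      · show P 1 = 0
        rw [hi2, h, mul_zero]
      · exact hU
    have hz : ∀ j, j ≠ i → ee a P j = 0 := by
      intro j hj
      unfold ee
      exact Finset.prod_eq_zero (Finset.mem_erase.2 ⟨hj.symm, Finset.mem_univ i⟩) hi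
    rw [Finset.sum_eq_single i (fun j _ hj => hz j hj) (fun h => absurd (Finset.mem_univ i) h)]
      at s1
    unfold ee at s1
    rw [Finset.prod_eq_zero_iff] at s1
    obtain ⟨j, hj, hj0⟩ := s1
    have hji := (Finset.mem_erase.1 hj).1
    unfold el at hj0
    rw [hU, hi2] at hj0
    have : (a i - a j) * P 0 = 0 := by linear_combination hj0
    rcases mul_eq_zero.1 this with h | h
    · exact hji (ha (sub_eq_zero.1 h)).symm
    · exact hS h
  · obtain ⟨x, y, hx, hy⟩ := roots_exist (S := P 0) (T := P 1) hU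
    have hel : ∀ j, el a P j = P 2 * ((a j - x) * (a j - y)) := by
      intro j
      unfold el
      rw [hx, hy]
      ring
    have hne : ∀ j, el a P j ≠ 0 := by
      intro j hj
      have h4 : (∏ i, el a P i) = 0 := Finset.prod_eq_zero (Finset.mem_univ j) hj
      rw [h4, mul_zero, zero_sub, neg_eq_zero] at hG
      exact hU (pow_eq_zero_iff (by omega) |>.1 hG)
    have hnx : ∀ j, a j - x ≠ 0 := by
      intro j hj
      apply hne j
      rw [hel, hj]
      ring
    have hny : ∀ j, a j - y ≠ 0 := by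
      intro j hj
      apply hne j
      rw [hel, hj]
      ring
    have sum1 : ∀ z : ℂ, ∑ i, (a i - z) * ee a P i = 0 := by
      intro z
      have : ∑ i, (a i - z) * ee a P i = (∑ i, a i * ee a P i) - z * ∑ i, ee a P i := by
        rw [Finset.mul_sum, ← Finset.sum_sub_distrib]
        refine Finset.sum_congr rfl fun i _ => ?_
        ring
      rw [this, s0, s1]
      ring
    have dx := key a P hU hx hy rfl hny (sum1 y)
    have dy := key (x := y) (y := x) a P hU (by rw [hx]; ring) (by rw [hy]; ring) rfl hnx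
      (sum1 x)
    apply hcrit x y dx dy
    rw [eval_prodX, eval_prodX]
    have h5 : (∏ i, el a P i) = P 2 ^ (n + 2) * ((∏ i, (x - a i)) * ∏ i, (y - a i)) := by
      have hc : P 2 ^ (n + 2) = ∏ _j : Fin (n + 2), P 2 := by simp
      rw [Finset.prod_congr rfl fun j _ => hel j, hc, ← Finset.prod_mul_distrib,
        ← Finset.prod_mul_distrib]
      refine Finset.prod_congr rfl fun j _ => ?_
      ring
    rw [h5] at hG
    have h6 : P 2 ^ (n + 2) * (L * (∏ i, (x - a i)) * (∏ i, (y - a i)) - 1) = 0 := by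
      linear_combination hG
    have h7 := (mul_eq_zero.1 h6).resolve_left (pow_ne_zero _ hU)
    exact sub_eq_zero.1 h7

end

end Pool.Agent.K2D
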