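import Pool.Agent.K2D.Defs
import Pool.Agent.K2C.Stmts

/-!
# Exact statements of the modules of squad K2D (MP_0a9c3b_nt, fourth hand-in)
Text: /team-store/MP_0a9c3b_K2D.md
-/

set_option autoImplicit false

open Polynomial

namespace Pool.Agent.K2D

open Pool.Agent.BEK Pool.Agent.K2B Pool.Agent.K2C

noncomputable section

/-- EVAL3: `(X + Y, X Y)` is a generic point for transcendental `X`. -/
def Stmt_Eval3 : Prop :=
  ∀ (k : Type) [Field k] (n : ℕ) (c : Pl k n) (σ : k →+* ℂ) (X Y : ℂ),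
    (∀ f : k[X], f ≠ 0 → (f.map σ).eval X ≠ 0) →
    σ c.lam * (∏ i, (X - σ (c.α i))) * (∏ i, (Y - σ (c.α i))) = 1 →
    ∃ e : c.F →+* ℂ, (∀ a, e (c.cst a) = σ a) ∧ e c.s = X + Y ∧ e c.t = X * Y

/-- GEN3: the function field is generated by the constants and `s`, `t`. -/
def Stmt_Gen3 : Prop :=
  ∀ (k : Type) [Field k] (n : ℕ) (c : Pl k n),
    c.cst c.lam * (∏ i, c.ell i) = 1 ∧
    ∀ S : Subfield c.F, (∀ a, c.cst a ∈ S) → c.s ∈ S → c.t ∈ S → S = ⊤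

/-- FLOOP3 (uses EVAL3, GEN3): loops of generic points. -/
def Stmt_FLoop3 : Prop :=
  ∀ (k : Type) [Field k] (n : ℕ) (c : Pl k n) (σ : k →+* ℂ) (X Y : ℝ → ℂ),
    ContDiff ℝ 1 X → ContDiff ℝ 1 Y →
    (∀ θ, X (θ + 2 * Real.pi) = X θ) → (∀ θ, Y (θ + 2 * Real.pi) = Y θ) →
    (∀ θ, σ c.lam * (∏ i, (X θ - σ (c.α i))) * (∏ i, (Y θ - σ (c.α i))) = 1) →
    (∀ θ (f : k[X]), f ≠ 0 → (f.map σ).eval (X θ) ≠ 0) →
    ∃ γ : Loop c.F, c.Over γ σ ∧
      (∀ θ i, γ.ev θ (c.ell i) = (X θ - σ (c.α i)) * (Y θ - σ (c.α i))) ∧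
      ((∀ a, (σ a).im = 0) → (∀ θ, X (-θ) = (starRingEnd ℂ) (X θ)) →
        (∀ θ, Y (-θ) = (starRingEnd ℂ) (Y θ)) → Anti γ)

/-- INTEG3: the tame symbols are trivial. -/
def Stmt_Integ3 : Prop :=
  ∀ (k F : Type) [Field k] [Field F] (c : k →+* F) (n : ℕ) (α : Fin (n + 2) → k) (lam : k)
    (s t : F) (l : Fin (n + 2) → F), Function.Injective α → α 0 = 0 →
    (∀ i, IsIntegral ℤ (α i)) → IsIntegral ℤ lam →
    (∀ i, l i = t - c (α i) * s + c (α i) ^ 2) → c lam * (∏ i, l i) = 1 →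
    ∀ (v : DV F) (i j : Fin (n + 2)), i ≠ 0 → j ≠ 0 → i ≠ j → ∀ (u w : Fˣ),
      (u : F) = c (α j / (α j - α i)) * (l i / l 0) →
      (w : F) = c (α i / (α i - α j)) * (l j / l 0) →
      v.tame u w = 1

/-- XIREG3 (uses REG, LIN of K2B): the regulator of `η_ij` in terms of those of `x - a_i`,
`y - a_j`. -/
def Stmt_XiReg3 : Prop :=
  ∀ (X Y : ℝ → ℂ) (o a b : ℂ), o ≠ a → o ≠ b → a ≠ b →
    Nz (fun θ => X θ - o) → Nz (fun θ => X θ - a) → Nz (fun θ => X θ - b) →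
    Nz (fun θ => Y θ - o) → Nz (fun θ => Y θ - a) → Nz (fun θ => Y θ - b) →
    regz (fun θ => (b - o) / (b - a) *
          (((X θ - a) * (Y θ - a)) / ((X θ - o) * (Y θ - o))))
        (fun θ => (a - o) / (a - b) *
          (((X θ - b) * (Y θ - b)) / ((X θ - o) * (Y θ - o)))) =
      (regz (fun θ => X θ - a) (fun θ => Y θ - b) - regz (fun θ => X θ - a) (fun θ => Y θ - o) -
        regz (fun θ => X θ - o) (fun θ => Y θ - b)) -
      (regz (fun θ => X θ - b) (fun θ => Y θ - a) - regz (fun θ => X θ - b) (fun θ => Y θ - o) -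
        regz (fun θ => X θ - o) (fun θ => Y θ - a))

/-- KER3 (linear algebra): antisymmetric extension. -/
def Stmt_Ker3 : Prop :=
  ∀ (n : ℕ) (w : Pr n → ℝ), ∃ W : Fin (n + 1) × Fin (n + 1) → ℝ,
    (∀ ij : Pr n, W ij.1 = w ij) ∧
    ∀ R : Fin (n + 1) → Fin (n + 1) → ℝ,
      ∑ ij : Pr n, (R ij.1.1 ij.1.2 - R ij.1.2 ij.1.1) * w ij =
        ∑ ij : Fin (n + 1) × Fin (n + 1), R ij.1 ij.2 * W ij

/-- SMOOTH3: smoothness of the projective plane curve. -/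
def Stmt_Smooth3 : Prop :=
  ∀ (n : ℕ) (a : Fin (n + 2) → ℂ) (L : ℂ), Function.Injective a → L ≠ 0 →
    (∀ u v : ℂ, (derivative (prodX a)).eval u = 0 → (derivative (prodX a)).eval v = 0 →
      L * (prodX a).eval u * (prodX a).eval v ≠ 1) →
    ∀ P : Fin 3 → ℂ, P ≠ 0 → MvPolynomial.eval P (form a L) = 0 →
      ∃ i, MvPolynomial.eval P (MvPolynomial.pderiv i (form a L)) ≠ 0

end

end Pool.Agent.K2D
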