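import Pool.Agent.K2D.Stmts
import Pool.Agent.K2C.QUO

/-!
# XIREG3: regulator of `η_ij` in terms of those of the linear factors
-/

set_option autoImplicit false

namespace Pool.Agent.K2D

open Pool.Agent.BEK Pool.Agent.K2B Pool.Agent.K2C

namespace XR

theorem nz_mul {f g : ℝ → ℂ} (hf : Nz f) (hg : Nz g) : Nz (fun θ => f θ * g θ) where
  smooth := hf.smooth.mul hg.smooth
  periodic := by
    intro θ
    show f (θ + 2 * Real.pi) * g (θ + 2 * Real.pi) = f θ * g θ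
    rw [hf.periodic, hg.periodic]
  ne := fun θ => mul_ne_zero (hf.ne θ) (hg.ne θ)

theorem nz_const {c : ℂ} (hc : c ≠ 0) : Nz (fun _ => c) where
  smooth := contDiff_const
  periodic := fun _ => rfl
  ne := fun _ => hc

theorem wind_div (hReg : Stmt_Reg) {f g : ℝ → ℂ} (hf : Nz f) (hg : Nz g) :
    wind (fun θ => f θ / g θ) = wind f - wind g := by
  have h := hReg.2.2.2.2.1 _ _ (Quo.nz_div hf hg) hg
  have e : (fun θ => f θ / g θ * g θ) = f := by
    funext θ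
    exact div_mul_cancel₀ _ (hg.ne θ)
  rw [e] at h
  linarith

end XR

open XR in
theorem xireg3_proof (hReg : Stmt_Reg) (hLin : Stmt_Lin) : Stmt_XiReg3 := by
  intro X Y o a b hoa hob hab hXo hXa hXb hYo hYa hYb
  obtain ⟨hml, hmr, hsym, hcon, hw, hwc⟩ := hReg
  have hba : b - a ≠ 0 := sub_ne_zero.mpr hab.symm
  have hab' : a - b ≠ 0 := sub_ne_zero.mpr hab
  have hbo : b - o ≠ 0 := sub_ne_zero.mpr hob.symm
  have hao : a - o ≠ 0 := sub_ne_zero.mpr hoa.symm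
  have hc1 : (b - o) / (b - a) ≠ 0 := div_ne_zero hbo hba
  have hc2 : (a - o) / (a - b) ≠ 0 := div_ne_zero hao hab'
  -- names
  have hA := nz_mul hXa hYa
  have hB := nz_mul hXb hYb
  have hO := nz_mul hXo hYo
  have hG := Quo.nz_div hA hO
  have hH := Quo.nz_div hB hO
  have hW := nz_mul (nz_const hc2) hH
  have self0 : ∀ f : ℝ → ℂ, regz f f = 0 := by
    intro f
    have := hsym f f
    linarith
  rw [hml _ _ _ (nz_const hc1) hG hW, hcon, hw _ _ (nz_const hc2) hH, hwc,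
    hmr _ _ _ hG (nz_const hc2) hH, hsym (fun _ => (a - o) / (a - b)), hcon,
    wind_div ⟨hml, hmr, hsym, hcon, hw, hwc⟩ hB hO,
    wind_div ⟨hml, hmr, hsym, hcon, hw, hwc⟩ hA hO,
    hw _ _ hXb hYb, hw _ _ hXo hYo, hw _ _ hXa hYa,
    Quo.left hA hO hH, Quo.right hA hB hO, Quo.right hO hB hO,
    hml _ _ _ hXa hYa hB, hml _ _ _ hXa hYa hO, hml _ _ _ hXo hYo hB, hml _ _ _ hXo hYo hO,
    hmr _ _ _ hXa hXb hYb, hmr _ _ _ hYa hXb hYb, hmr _ _ _ hXa hXo hYo, hmr _ _ _ hYa hXo hYo,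
    hmr _ _ _ hXo hXb hYb, hmr _ _ _ hYo hXb hYb, hmr _ _ _ hXo hXo hYo, hmr _ _ _ hYo hXo hYo,
    self0 (fun θ => X θ - o), self0 (fun θ => Y θ - o),
    hLin X a b hab hXa hXb, hLin X a o hoa.symm hXa hXo, hLin X o b hob hXo hXb,
    hLin Y a b hab hYa hYb, hLin Y a o hoa.symm hYa hYo, hLin Y o b hob hYo hYb,
    hsym (fun θ => X θ - b) (fun θ => Y θ - a), hsym (fun θ => X θ - o) (fun θ => Y θ - a),
    hsym (fun θ => X θ - b) (fun θ => Y θ - o), hsym (fun θ => X θ - o) (fun θ => Y θ - o),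
    norm_div, norm_div, Real.log_div (norm_ne_zero_iff.mpr hbo) (norm_ne_zero_iff.mpr hba),
    Real.log_div (norm_ne_zero_iff.mpr hao) (norm_ne_zero_iff.mpr hab'),
    norm_sub_rev b o, norm_sub_rev b a]
  ring

end Pool.Agent.K2D
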